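import Mathlib
import Pool.Agent.Q61.DP.Stm

/-!
# Concatenation of curves
-/

namespace Pool.Agent.Q259.DP

open MeasureTheory Topology Filter Set Metric
open Pool.Agent.Q61.DP

/-- There is a curve from `x` to `y` of length at most `L`. -/
def Reach (u : ℂ → ℝ) (x y : ℂ) (L : ℝ) : Prop :=
  ∃ γ : ℝ → ℂ, PiecewiseC1 γ ∧ γ 0 = x ∧ γ 1 = y ∧
    IntervalIntegrable (fun t => Real.exp (u (γ t)) * ‖deriv γ t‖) volume 0 1 ∧ glength u γ ≤ L

theorem Reach.gdist_le {u : ℂ → ℝ} {x y : ℂ} {L : ℝ} (h : Reach u x y L) :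
    gdist u x y ≤ ENNReal.ofReal L := by
  obtain ⟨γ, h1, h2, h3, -, h5⟩ := h
  unfold gdist
  refine (iInf₂_le γ ⟨h1, h2, h3⟩).trans (ENNReal.ofReal_le_ofReal h5)

theorem Reach.mono {u : ℂ → ℝ} {x y : ℂ} {L L' : ℝ} (h : Reach u x y L) (hL : L ≤ L') :
    Reach u x y L' := by
  obtain ⟨γ, h1, h2, h3, h4, h5⟩ := h
  exact ⟨γ, h1, h2, h3, h4, h5.trans hL⟩

theorem Reach.of_contDiff {u : ℂ → ℝ} (hu : Continuous u) {γ : ℝ → ℂ} (hγ : ContDiff ℝ 1 γ)
    {L : ℝ} (hL : glength u γ ≤ L) : Reach u (γ 0) (γ 1) L := by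
  refine ⟨γ, ⟨hγ.continuous.continuousOn, 1, fun i => min (i : ℝ) 1, ?_, by simp, by simp, ?_⟩,
    rfl, rfl, ?_, hL⟩
  · intro i j hij
    exact min_le_min_right 1 (by exact_mod_cast hij)
  · intro i _ _
    exact hγ.contDiffOn
  · apply Continuous.intervalIntegrable
    have h1 : Continuous (deriv γ) := hγ.continuous_deriv (le_refl _)
    exact (Real.continuous_exp.comp (hu.comp hγ.continuous)).mul h1.norm

/-- The concatenation of two curves. -/
noncomputable def conc (γ₁ γ₂ : ℝ → ℂ) (t : ℝ) : ℂ :=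
  if t ≤ 1 / 2 then γ₁ (2 * t) else γ₂ (2 * t - 1)

theorem conc_left (γ₁ γ₂ : ℝ → ℂ) {t : ℝ} (ht : t ≤ 1 / 2) : conc γ₁ γ₂ t = γ₁ (2 * t) := by
  simp only [conc, if_pos ht]

theorem conc_right {γ₁ γ₂ : ℝ → ℂ} (h : γ₁ 1 = γ₂ 0) {t : ℝ} (ht : 1 / 2 ≤ t) :
    conc γ₁ γ₂ t = γ₂ (2 * t - 1) := by
  rcases eq_or_lt_of_le ht with h1 | h1
  · rw [conc_left γ₁ γ₂ h1.symm.le, ← h1]
    norm_num [h]
  · simp only [conc, if_neg (not_le.mpr h1)]

theorem conc_pw {γ₁ γ₂ : ℝ → ℂ} (h : γ₁ 1 = γ₂ 0) (h₁ : PiecewiseC1 γ₁) (h₂ : PiecewiseC1 γ₂) :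
    PiecewiseC1 (conc γ₁ γ₂) := by
  obtain ⟨c1, n1, t1, m1, z1, o1, d1⟩ := h₁
  obtain ⟨c2, n2, t2, m2, z2, o2, d2⟩ := h₂
  have hl : EqOn (conc γ₁ γ₂) (fun t => γ₁ (2 * t)) (Icc 0 (1 / 2)) := fun t ht =>
    conc_left γ₁ γ₂ ht.2
  have hr : EqOn (conc γ₁ γ₂) (fun t => γ₂ (2 * t - 1)) (Icc (1 / 2) 1) := fun t ht =>
    conc_right h ht.1
  refine ⟨?_, n1 + n2, fun i => if i ≤ n1 then t1 i / 2 else 1 / 2 + t2 (i - n1) / 2, ?_, ?_, ?_, ?_⟩
  · have e : Icc (0:ℝ) 1 = Icc 0 (1 / 2) ∪ Icc (1 / 2) 1 := by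
      rw [Icc_union_Icc_eq_Icc (by norm_num) (by norm_num)]
    rw [e]
    refine ContinuousOn.union_of_isClosed ?_ ?_ isClosed_Icc isClosed_Icc
    · refine ContinuousOn.congr ?_ hl
      refine c1.comp (by fun_prop) ?_
      intro t ht
      exact ⟨by linarith [ht.1], by linarith [ht.2]⟩
    · refine ContinuousOn.congr ?_ hr
      refine c2.comp (by fun_prop) ?_
      intro t ht
      exact ⟨by linarith [ht.1], by linarith [ht.2]⟩
  · refine monotone_nat_of_le_succ fun i => ?_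
    by_cases h1 : i + 1 ≤ n1
    · simp only [if_pos h1, if_pos (by omega : i ≤ n1)]
      have := m1 (Nat.le_succ i)
      simp only [Nat.succ_eq_add_one] at this
      linarith
    · by_cases h2 : i ≤ n1
      · have h3 : i = n1 := by omega
        subst h3
        simp only [if_neg h1, if_pos h2, o1]
        have := m2 (Nat.zero_le (i + 1 - i))
        rw [z2] at this
        linarith
      · simp only [if_neg h1, if_neg h2]
        have := m2 (show i - n1 ≤ i + 1 - n1 by omega)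
        linarith
  · simp [z1]
  · by_cases h2 : n2 = 0
    · subst h2
      rw [o2] at z2
      norm_num at z2
    · simp only [if_neg (by omega : ¬ n1 + n2 ≤ n1), Nat.add_sub_cancel_left, o2]
      norm_num
  · intro i hi hlt
    by_cases h1 : i + 1 ≤ n1
    · simp only [if_pos h1, if_pos (by omega : i ≤ n1)] at hlt ⊢
      have h3 : t1 (i + 1) ≤ 1 := o1 ▸ m1 h1
      have h4 : 0 ≤ t1 i := z1 ▸ m1 (Nat.zero_le i)
      have h5 := d1 i (by omega) (by linarith)
      refine ContDiffOn.congr (f₁ := conc γ₁ γ₂) (f := fun t => γ₁ (2 * t)) ?_ ?_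
      · refine h5.comp (by fun_prop) ?_
        intro t ht
        exact ⟨by linarith [ht.1], by linarith [ht.2]⟩
      · intro t ht
        exact hl ⟨by linarith [ht.1], by linarith [ht.2]⟩
    · have key : ∀ j, i = n1 + j → (if i ≤ n1 then t1 i / 2 else 1 / 2 + t2 (i - n1) / 2) = 1 / 2 + t2 j / 2 ∧
          (if i + 1 ≤ n1 then t1 (i + 1) / 2 else 1 / 2 + t2 (i + 1 - n1) / 2) = 1 / 2 + t2 (j + 1) / 2 := by
        intro j hj
        refine ⟨?_, ?_⟩
        · by_cases hj0 : j = 0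
          · subst hj0
            simp only [if_pos (by omega : i ≤ n1), z2]
            rw [show i = n1 by omega, o1]
            norm_num
          · simp only [if_neg (by omega : ¬ i ≤ n1)]
            rw [show i - n1 = j by omega]
        · simp only [if_neg h1]
          rw [show i + 1 - n1 = j + 1 by omega]
      obtain ⟨k1, k2⟩ := key (i - n1) (by omega)
      simp only at hlt ⊢
      rw [k1, k2] at hlt
      rw [k1, k2]
      have h3 : t2 (i - n1 + 1) ≤ 1 := o2 ▸ m2 (by omega)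
      have h4 : 0 ≤ t2 (i - n1) := z2 ▸ m2 (Nat.zero_le _)
      have h5 := d2 (i - n1) (by omega) (by linarith)
      refine ContDiffOn.congr (f₁ := conc γ₁ γ₂) (f := fun t => γ₂ (2 * t - 1)) ?_ ?_
      · refine h5.comp (by fun_prop) ?_
        intro t ht
        exact ⟨by linarith [ht.1], by linarith [ht.2]⟩
      · intro t ht
        exact hr ⟨by linarith [ht.1], by linarith [ht.2]⟩

theorem Reach.trans {u : ℂ → ℝ} {x y z : ℂ} {L₁ L₂ : ℝ} (h₁ : Reach u x y L₁)
    (h₂ : Reach u y z L₂) : Reach u x z (L₁ + L₂) := by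
  obtain ⟨γ₁, p1, z1, o1, i1, l1⟩ := h₁
  obtain ⟨γ₂, p2, z2, o2, i2, l2⟩ := h₂
  have h : γ₁ 1 = γ₂ 0 := o1.trans z2.symm
  set F₁ : ℝ → ℝ := fun t => Real.exp (u (γ₁ t)) * ‖deriv γ₁ t‖ with hF1
  set F₂ : ℝ → ℝ := fun t => Real.exp (u (γ₂ t)) * ‖deriv γ₂ t‖ with hF2
  set F : ℝ → ℝ := fun t => Real.exp (u (conc γ₁ γ₂ t)) * ‖deriv (conc γ₁ γ₂) t‖ with hF
  have e1 : ∀ t, t < 1 / 2 → 2 * F₁ (2 * t) = F t := by
    intro t ht
    have e : conc γ₁ γ₂ =ᶠ[𝓝 t] fun s => γ₁ (2 * s) := by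
      filter_upwards [Iio_mem_nhds ht] with s hs
      exact conc_left _ _ (le_of_lt hs)
    simp only [hF1, hF]
    rw [e.deriv_eq, deriv_comp_mul_left, conc_left _ _ ht.le, norm_smul]
    norm_num
    ring
  have e2 : ∀ t, 1 / 2 < t → 2 * F₂ (2 * t - 1) = F t := by
    intro t ht
    have e : conc γ₁ γ₂ =ᶠ[𝓝 t] fun s => γ₂ (2 * s - 1) := by
      filter_upwards [Ioi_mem_nhds ht] with s hs
      exact conc_right h (le_of_lt hs)
    have e' : deriv (fun s => γ₂ (2 * s - 1)) t = (2:ℝ) • deriv γ₂ (2 * t - 1) := by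
      have := deriv_comp_mul_left (2:ℝ) (fun s => γ₂ (s - 1)) t
      rw [this, deriv_comp_sub_const]
    simp only [hF2, hF]
    rw [e.deriv_eq, e', conc_right h ht.le, norm_smul]
    norm_num
    ring
  have j1 : IntervalIntegrable F volume 0 (1 / 2) := by
    have := (i1.comp_mul_left (c := 2)).const_mul 2
    norm_num at this
    refine this.congr_uIoo ?_
    intro t ht
    rw [uIoo_of_le (by norm_num)] at ht
    exact e1 t (by linarith [ht.2])
  have j2 : IntervalIntegrable F volume (1 / 2) 1 := by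
    have := ((i2.comp_sub_right 1).comp_mul_left (c := 2)).const_mul 2
    norm_num at this
    refine this.congr_uIoo ?_
    intro t ht
    rw [uIoo_of_le (by norm_num)] at ht
    exact e2 t (by linarith [ht.1])
  refine ⟨conc γ₁ γ₂, conc_pw h p1 p2, ?_, ?_, j1.trans j2, ?_⟩
  · rw [conc_left _ _ (by norm_num)]
    simpa using z1
  · rw [conc_right h (by norm_num)]
    norm_num
    exact o2
  · have k1 : ∫ t in (0:ℝ)..(1/2), F t = glength u γ₁ := by
      have : ∫ t in (0:ℝ)..(1/2), F t = ∫ t in (0:ℝ)..(1/2), 2 * F₁ (2 * t) := by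
        refine intervalIntegral.integral_congr_Ioo_of_le (by norm_num) ?_
        intro t ht
        exact (e1 t ht.2).symm
      rw [this, intervalIntegral.integral_const_mul,
        intervalIntegral.integral_comp_mul_left (fun t => F₁ t) (by norm_num : (2:ℝ) ≠ 0)]
      have e3 : glength u γ₁ = ∫ t in (0:ℝ)..1, F₁ t := rfl
      rw [e3]
      norm_num
      ring
    have k2 : ∫ t in (1/2:ℝ)..1, F t = glength u γ₂ := by
      have : ∫ t in (1/2:ℝ)..1, F t = ∫ t in (1/2:ℝ)..1, 2 * F₂ (2 * t - 1) := by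
        refine intervalIntegral.integral_congr_Ioo_of_le (by norm_num) ?_
        intro t ht
        exact (e2 t ht.1).symm
      rw [this, intervalIntegral.integral_const_mul,
        intervalIntegral.integral_comp_mul_sub (fun t => F₂ t) (by norm_num : (2:ℝ) ≠ 0)]
      have e3 : glength u γ₂ = ∫ t in (0:ℝ)..1, F₂ t := rfl
      rw [e3]
      norm_num
      ring
    have k3 : glength u (conc γ₁ γ₂) = ∫ t in (0:ℝ)..1, F t := rfl
    rw [k3, ← intervalIntegral.integral_add_adjacent_intervals j1 j2, k1, k2]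
    linarith

end Pool.Agent.Q259.DP
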