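import Mathlib
import Pool.Agent.Q259.DP.Conc

/-!
# DP-52: the distance in the radial case is at most `π`
-/

namespace Pool.Agent.Q259.DP

open MeasureTheory Topology Filter Set Metric
open Pool.Agent.Q61.DP

/-- The radial solution. -/
noncomputable def ru (l : ℝ) (x₀ : ℂ) (x : ℂ) : ℝ := Real.log (2 * l / (1 + l ^ 2 * ‖x - x₀‖ ^ 2))

theorem ru_pos {l : ℝ} (hl : 0 < l) (x₀ x : ℂ) : 0 < 2 * l / (1 + l ^ 2 * ‖x - x₀‖ ^ 2) := by
  positivity

theorem ru_exp {l : ℝ} (hl : 0 < l) (x₀ x : ℂ) :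
    Real.exp (ru l x₀ x) = 2 * l / (1 + l ^ 2 * ‖x - x₀‖ ^ 2) :=
  Real.exp_log (ru_pos hl x₀ x)

theorem ru_cont {l : ℝ} (hl : 0 < l) (x₀ : ℂ) : Continuous (ru l x₀) := by
  unfold ru
  refine Continuous.log ?_ fun x => (ru_pos hl x₀ x).ne'
  refine Continuous.div (by fun_prop) (by fun_prop) fun x => ?_
  positivity

/-- Radial segment. -/
theorem reach_rad {l : ℝ} (hl : 0 < l) (x₀ e : ℂ) (he : ‖e‖ = 1) (r₁ r₂ : ℝ) :
    Reach (ru l x₀) (x₀ + r₁ * e) (x₀ + r₂ * e) (2 * |Real.arctan (l * r₂) - Real.arctan (l * r₁)|) := by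
  have hγ : ContDiff ℝ 1 (fun t : ℝ => x₀ + ((r₁ + t * (r₂ - r₁) : ℝ) : ℂ) * e) := by
    have h0 : ContDiff ℝ 1 (fun t : ℝ => r₁ + t * (r₂ - r₁)) := by fun_prop
    have : ContDiff ℝ 1 (fun t : ℝ => ((r₁ + t * (r₂ - r₁) : ℝ) : ℂ)) :=
      Complex.ofRealCLM.contDiff.comp h0
    fun_prop
  have hd : ∀ t : ℝ, deriv (fun t : ℝ => x₀ + ((r₁ + t * (r₂ - r₁) : ℝ) : ℂ) * e) t =
      ((r₂ - r₁ : ℝ) : ℂ) * e := by
    intro t
    have h1 : HasDerivAt (fun t : ℝ => r₁ + t * (r₂ - r₁)) (r₂ - r₁) t := by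
      simpa using ((hasDerivAt_id t).mul_const (r₂ - r₁)).const_add r₁
    exact ((h1.ofReal_comp.mul_const e).const_add x₀).deriv
  have hL : glength (ru l x₀) (fun t : ℝ => x₀ + ((r₁ + t * (r₂ - r₁) : ℝ) : ℂ) * e) ≤
      2 * |Real.arctan (l * r₂) - Real.arctan (l * r₁)| := by
    unfold glength
    have h2 : ∀ t : ℝ, Real.exp (ru l x₀ (x₀ + ((r₁ + t * (r₂ - r₁) : ℝ) : ℂ) * e)) *
        ‖deriv (fun t : ℝ => x₀ + ((r₁ + t * (r₂ - r₁) : ℝ) : ℂ) * e) t‖ =
        |r₂ - r₁| * (2 * l / (1 + (l * (r₁ + t * (r₂ - r₁))) ^ 2)) := by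
      intro t
      rw [ru_exp hl, hd, norm_mul, he, mul_one, Complex.norm_real, Real.norm_eq_abs,
        add_sub_cancel_left, norm_mul, he, mul_one, Complex.norm_real, Real.norm_eq_abs, sq_abs]
      rw [mul_comm, mul_pow]
    simp only [h2]
    rw [intervalIntegral.integral_const_mul]
    have h3 : ∀ t : ℝ, HasDerivAt (fun t => 2 * Real.arctan (l * (r₁ + t * (r₂ - r₁))))
        ((r₂ - r₁) * (2 * l / (1 + (l * (r₁ + t * (r₂ - r₁))) ^ 2))) t := by
      intro t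
      have h1 : HasDerivAt (fun t : ℝ => l * (r₁ + t * (r₂ - r₁))) (l * (r₂ - r₁)) t := by
        simpa using (((hasDerivAt_id t).mul_const (r₂ - r₁)).const_add r₁).const_mul l
      refine ((h1.arctan).const_mul 2).congr_deriv ?_
      have h0 : (1:ℝ) + (l * (r₁ + t * (r₂ - r₁))) ^ 2 ≠ 0 := by positivity
      field_simp
    have h4 : Continuous fun t : ℝ => (r₂ - r₁) * (2 * l / (1 + (l * (r₁ + t * (r₂ - r₁))) ^ 2)) := by
      refine continuous_const.mul (Continuous.div (by fun_prop) (by fun_prop) fun t => ?_)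
      positivity
    have h5 := intervalIntegral.integral_eq_sub_of_hasDerivAt (fun t _ => h3 t)
      (h4.intervalIntegrable 0 1)
    rw [intervalIntegral.integral_const_mul] at h5
    simp only [one_mul, zero_mul, add_zero, add_sub_cancel] at h5
    have h6 : 0 ≤ ∫ t in (0:ℝ)..1, 2 * l / (1 + (l * (r₁ + t * (r₂ - r₁))) ^ 2) := by
      refine intervalIntegral.integral_nonneg (by norm_num) fun t _ => ?_
      positivity
    rw [← mul_sub] at h5
    have h7 := congrArg (fun x => |x|) h5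
    simp only [abs_mul, abs_of_nonneg h6] at h7
    rw [h7]
    norm_num
  have := Reach.of_contDiff (ru_cont hl x₀) hγ hL
  simpa using this

/-- Circular arc. -/
theorem reach_arc {l : ℝ} (hl : 0 < l) (x₀ : ℂ) {R : ℝ} (hR : 0 < R) (θ₁ θ₂ : ℝ)
    (hθ : |θ₂ - θ₁| ≤ 2 * Real.pi) :
    Reach (ru l x₀) (x₀ + R * Complex.exp (θ₁ * Complex.I)) (x₀ + R * Complex.exp (θ₂ * Complex.I))
      (4 * Real.pi / (l * R)) := by
  have hγ : ContDiff ℝ 1 (fun t : ℝ => x₀ + R * Complex.exp (((θ₁ + t * (θ₂ - θ₁) : ℝ) : ℂ) * Complex.I)) := by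
    have h0 : ContDiff ℝ 1 (fun t : ℝ => θ₁ + t * (θ₂ - θ₁)) := by fun_prop
    have : ContDiff ℝ 1 (fun t : ℝ => ((θ₁ + t * (θ₂ - θ₁) : ℝ) : ℂ)) :=
      Complex.ofRealCLM.contDiff.comp h0
    fun_prop
  have hd : ∀ t : ℝ, ‖deriv (fun t : ℝ => x₀ + R * Complex.exp (((θ₁ + t * (θ₂ - θ₁) : ℝ) : ℂ) * Complex.I)) t‖ =
      R * |θ₂ - θ₁| := by
    intro t
    have h1 : HasDerivAt (fun t : ℝ => θ₁ + t * (θ₂ - θ₁)) (θ₂ - θ₁) t := by
      simpa using ((hasDerivAt_id t).mul_const (θ₂ - θ₁)).const_add θ₁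
    have h2 := (((h1.ofReal_comp.mul_const Complex.I).cexp.const_mul (R : ℂ)).const_add x₀).deriv
    rw [h2, norm_mul, norm_mul, norm_mul, Complex.norm_exp_ofReal_mul_I, Complex.norm_I,
      Complex.norm_real, Complex.norm_real, Real.norm_eq_abs, Real.norm_eq_abs, abs_of_pos hR]
    ring
  have hn : ∀ t : ℝ, ‖x₀ + R * Complex.exp (((θ₁ + t * (θ₂ - θ₁) : ℝ) : ℂ) * Complex.I) - x₀‖ = R := by
    intro t
    rw [add_sub_cancel_left, norm_mul, Complex.norm_exp_ofReal_mul_I, Complex.norm_real,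
      Real.norm_eq_abs, abs_of_pos hR, mul_one]
  have hL : glength (ru l x₀) (fun t : ℝ => x₀ + R * Complex.exp (((θ₁ + t * (θ₂ - θ₁) : ℝ) : ℂ) * Complex.I)) ≤
      4 * Real.pi / (l * R) := by
    unfold glength
    have h2 : ∀ t : ℝ, Real.exp (ru l x₀ (x₀ + R * Complex.exp (((θ₁ + t * (θ₂ - θ₁) : ℝ) : ℂ) * Complex.I))) *
        ‖deriv (fun t : ℝ => x₀ + R * Complex.exp (((θ₁ + t * (θ₂ - θ₁) : ℝ) : ℂ) * Complex.I)) t‖ =
        2 * l / (1 + l ^ 2 * R ^ 2) * (R * |θ₂ - θ₁|) := by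
      intro t
      rw [ru_exp hl, hd, hn]
    simp only [h2]
    rw [intervalIntegral.integral_const]
    simp only [sub_zero, one_smul]
    have hp := Real.pi_pos
    calc 2 * l / (1 + l ^ 2 * R ^ 2) * (R * |θ₂ - θ₁|)
        ≤ 2 * l / (1 + l ^ 2 * R ^ 2) * (R * (2 * Real.pi)) := by gcongr
      _ ≤ 4 * Real.pi / (l * R) := by
        rw [div_mul_eq_mul_div, div_le_div_iff₀ (by positivity) (by positivity)]
        nlinarith [mul_pos hp hl, mul_pos hl hR, mul_pos hp (mul_pos hl hR)]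
  have := Reach.of_contDiff (ru_cont hl x₀) hγ hL
  simpa using this

theorem t_C3 : S_C3 := by
  intro l x₀ hl x y
  change gdist (ru l x₀) x y ≤ _
  have hx : x = x₀ + (‖x - x₀‖ : ℝ) * Complex.exp ((Complex.arg (x - x₀) : ℝ) * Complex.I) := by
    rw [Complex.norm_mul_exp_arg_mul_I]; ring
  have hy : y = x₀ + (‖y - x₀‖ : ℝ) * Complex.exp ((Complex.arg (y - x₀) : ℝ) * Complex.I) := by
    rw [Complex.norm_mul_exp_arg_mul_I]; ring
  have hx0 : 0 ≤ ‖x - x₀‖ := norm_nonneg _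
  have hy0 : 0 ≤ ‖y - x₀‖ := norm_nonneg _
  have hθ : |Complex.arg (y - x₀) - Complex.arg (x - x₀)| ≤ 2 * Real.pi := by
    have h1 := Complex.abs_arg_le_pi (x - x₀)
    have h2 := Complex.abs_arg_le_pi (y - x₀)
    rw [abs_le] at *
    constructor <;> linarith
  generalize ‖x - x₀‖ = r₁ at hx hx0
  generalize ‖y - x₀‖ = r₂ at hy hy0
  generalize Complex.arg (x - x₀) = θ₁ at hx hθ
  generalize Complex.arg (y - x₀) = θ₂ at hy hθ
  subst hx
  subst hy
  have ha1 : 0 ≤ Real.arctan (l * r₁) := Real.arctan_nonneg.mpr (by positivity)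
  have ha2 : 0 ≤ Real.arctan (l * r₂) := Real.arctan_nonneg.mpr (by positivity)
  rcases le_or_gt (2 * Real.arctan (l * r₁) + 2 * Real.arctan (l * r₂)) Real.pi with h | h
  · have p1 := reach_rad hl x₀ (Complex.exp (θ₁ * Complex.I)) (Complex.norm_exp_ofReal_mul_I θ₁) r₁ 0
    have p2 := reach_rad hl x₀ (Complex.exp (θ₂ * Complex.I)) (Complex.norm_exp_ofReal_mul_I θ₂) 0 r₂
    simp only [mul_zero, Real.arctan_zero, Complex.ofReal_zero, zero_mul, add_zero, zero_sub,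
      sub_zero, abs_neg, abs_of_nonneg ha1, abs_of_nonneg ha2] at p1 p2
    exact ((p1.trans p2).mono h).gdist_le
  · set S := 2 * Real.arctan (l * r₁) + 2 * Real.arctan (l * r₂) with hS
    set R := max (max r₁ r₂) (4 * Real.pi / (l * (S - Real.pi))) with hRd
    have hp := Real.pi_pos
    have hS' : 0 < S - Real.pi := by linarith
    have hR : 0 < R := lt_of_lt_of_le (by positivity) (le_max_right _ _)
    have hR1 : r₁ ≤ R := (le_max_left _ _).trans (le_max_left _ _)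
    have hR2 : r₂ ≤ R := (le_max_right _ _).trans (le_max_left _ _)
    have hR3 : 4 * Real.pi / (l * R) ≤ S - Real.pi := by
      have : 4 * Real.pi / (l * (S - Real.pi)) ≤ R := le_max_right _ _
      rw [div_le_iff₀ (by positivity)] at this ⊢
      linarith
    have p1 := reach_rad hl x₀ (Complex.exp (θ₁ * Complex.I)) (Complex.norm_exp_ofReal_mul_I θ₁) r₁ R
    have p2 := reach_arc hl x₀ hR θ₁ θ₂ hθ
    have p3 := reach_rad hl x₀ (Complex.exp (θ₂ * Complex.I)) (Complex.norm_exp_ofReal_mul_I θ₂) R r₂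
    have q1 : Real.arctan (l * r₁) ≤ Real.arctan (l * R) := Real.arctan_mono (by gcongr)
    have q2 : Real.arctan (l * r₂) ≤ Real.arctan (l * R) := Real.arctan_mono (by gcongr)
    rw [abs_of_nonneg (by linarith)] at p1
    rw [abs_of_nonpos (by linarith)] at p3
    have q3 : Real.arctan (l * R) < Real.pi / 2 := Real.arctan_lt_pi_div_two _
    refine (((p1.trans p2).trans p3).mono ?_).gdist_le
    linarith

end Pool.Agent.Q259.DP
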