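import Mathlib
import Pool.Agent.Q61.DP.Stm

/-!
# DP-13: inverse branches of the developing map are holomorphic
-/

namespace Pool.Agent.Q259.DP

open MeasureTheory InnerProductSpace Laplacian Topology Filter Set Metric
open Pool.Agent.Q61.DP

theorem t_HOL : S_HOL := by
  intro u a b hD U G hU hG hGb
  have ha : ∀ w ∈ U, a (G w) ≠ 0 := by
    intro w hw h0
    have h1 := hD.wr (G w)
    have h2 := hGb w hw
    rw [h0, mul_zero] at h2
    rw [h0, h2] at h1
    simp at h1
  have hf : ∀ z, a z ≠ 0 → HasDerivAt (fun z => b z / a z) (a z ^ 2)⁻¹ z := by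
    intro z hz
    have h1 := ((hD.db z).hasDerivAt).div ((hD.da z).hasDerivAt) hz
    have h2 := hD.wr z
    have h3 : (deriv b z * a z - b z * deriv a z) / a z ^ 2 = (a z ^ 2)⁻¹ := by
      have : deriv b z * a z - b z * deriv a z = 1 := by linear_combination h2
      rw [this, one_div]
    rw [h3] at h1
    exact h1
  have hGd : ∀ w ∈ U, HasDerivAt G (a (G w) ^ 2) w := by
    intro w hw
    have hc : ContinuousAt G w := hG.continuousAt (hU.mem_nhds hw)
    have h1 := HasDerivAt.of_local_left_inverse (f := fun z => b z / a z) (g := G) hc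
      (hf (G w) (ha w hw)) (inv_ne_zero (pow_ne_zero 2 (ha w hw)))
      (by
        filter_upwards [hU.mem_nhds hw] with y hy
        rw [hGb y hy, mul_div_assoc, div_self (ha y hy), mul_one])
    rwa [inv_inv] at h1
  have hdo : DifferentiableOn ℂ G U := fun w hw => (hGd w hw).differentiableAt.differentiableWithinAt
  refine ⟨hdo, fun w hw => ⟨ha w hw, (hGd w hw).deriv⟩, ?_, ?_⟩
  · intro w hw w' hw' h
    have h1 := hGb w hw
    have h2 := hGb w' hw'
    have h3 : G w = G w' := h
    rw [← h3] at h2
    have := ha w hw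
    have h4 : w * a (G w) = w' * a (G w) := h1.symm.trans h2
    exact mul_right_cancel₀ this h4
  · intro V hV hVo
    rw [isOpen_iff_mem_nhds]
    rintro _ ⟨w, hw, rfl⟩
    have hwU := hV hw
    have han : AnalyticAt ℂ G w := hdo.analyticAt (hU.mem_nhds hwU)
    have hs : HasStrictDerivAt G (a (G w) ^ 2) w := by
      have := han.hasStrictDerivAt
      rwa [(hGd w hwU).deriv] at this
    have hm := hs.map_nhds_eq (pow_ne_zero 2 (ha w hwU))
    rw [← hm]
    exact image_mem_map (hVo.mem_nhds hw)

end Pool.Agent.Q259.DP
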